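import Pool.Agent.helper69.DH.SpecR2

/-!
# Project d2: row rRHY (the hypotheses of the routing hold)
-/

set_option autoImplicit false

open Filter Topology MeasureTheory
open scoped commutatorElement

namespace Pool.Agent.helper90.DH

open Pool.Agent.helper64.D2

lemma rRHY_pow (w A : ℕ) (hA : A ≤ w) : (8 : ℝ) ≤ 2 ^ 10 * (2 ^ (3 * A) / 2 ^ (2 * w)) * 2 ^ (2 * w + 4 - A) := by
  have h1 : (2 : ℝ) ^ (3 * A) * 2 ^ (2 * w + 4 - A) = 2 ^ (2 * w) * 2 ^ (4 + 2 * A) := by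
    rw [← pow_add, ← pow_add]
    congr 1
    omega
  have h2 : (2 : ℝ) ^ 10 * (2 ^ (3 * A) / 2 ^ (2 * w)) * 2 ^ (2 * w + 4 - A) = 2 ^ 10 * 2 ^ (4 + 2 * A) := by
    have h3 : (2 : ℝ) ^ (2 * w) ≠ 0 := by positivity
    field_simp
    linear_combination h1
  rw [h2]
  have h4 : (1 : ℝ) ≤ 2 ^ (4 + 2 * A) := one_le_pow₀ (by norm_num)
  linarith

/-- **rRHY**. -/
theorem rRHY (hNIM : rNIM_stmt) (hMXI : rMXI_stmt) (hTDN : rTDN_stmt) : rRHY_stmt := by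
  classical
  intro K0 m0 hK0
  obtain ⟨a, wa, hT⟩ := hTDN K0 m0 hK0
  obtain ⟨wb, hM⟩ := hMXI K0 a hK0
  refine ⟨a, max (max wa wb) 30, ?_⟩
  intro w0 hw0
  have hwa : wa ≤ w0 := le_trans (le_max_left _ _) (le_trans (le_max_left _ _) hw0)
  have hwb : wb ≤ w0 := le_trans (le_max_right _ _) (le_trans (le_max_left _ _) hw0)
  have hw30 : 30 ≤ w0 := le_trans (le_max_right _ _) hw0
  obtain ⟨hLL, q0, hq0⟩ := hT w0 hwa
  refine ⟨hLL, hw30, max q0 (max (10 * w0) 1), ?_⟩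
  intro q s0 hq hs0
  have hq1 : q0 ≤ q := le_trans (le_max_left _ _) hq
  have hs1 : q0 ≤ s0 := le_trans (le_max_left _ _) hs0
  have hqq : 1 ≤ q := le_trans (le_max_right _ _) (le_trans (le_max_right _ _) hq)
  have h10 : 10 * w0 ≤ s0 := le_trans (le_max_left _ _) (le_trans (le_max_right _ _) hs0)
  refine ⟨h10, ?_⟩
  intro N S cm σ y hy hHY
  obtain ⟨hd1, hd2⟩ := hq0 q s0 hq1 hs1 (1 / 2 ^ 29) N S cm σ y hy (by norm_num) hHY
  refine ⟨⟨?_, ?_, ?_, ?_⟩, hd2⟩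
  · show 1 ≤ q ∧ 1 ≤ s0 - w0 - 4 ∧ s0 - w0 - 4 ≤ s0 ∧ 216 ≤ s0 ∧ s0 ≤ s0 + w0 - a * LL w0 ∧ s0 - w0 - 4 + 34 ≤ s0 + w0 - a * LL w0 ∧
      0 < (2 : ℝ) ^ (3 * a * LL w0) / 2 ^ (2 * w0) ∧ (8 : ℝ) ≤ 2 ^ 10 * (2 ^ (3 * a * LL w0) / 2 ^ (2 * w0)) * 2 ^ (s0 + w0 - a * LL w0 - (s0 - w0 - 4))
    refine ⟨hqq, by omega, by omega, by omega, by omega, by omega, by positivity, ?_⟩
    have e1 : s0 + w0 - a * LL w0 - (s0 - w0 - 4) = 2 * w0 + 4 - a * LL w0 := by omega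
    rw [e1, mul_assoc 3 a (LL w0)]
    exact rRHY_pow w0 (a * LL w0) hLL
  · intro s hs
    show rTB q (cm s) s0 (s0 + w0 - a * LL w0) y s = ∅
    apply Finset.eq_empty_of_forall_notMem
    intro k hk
    unfold rTB at hk
    rw [Finset.mem_filter] at hk
    have hs' : s < s0 + w0 - a * LL w0 := hs
    have := hk.2.1
    omega
  · intro s hs hsS i hi
    have hs' : s0 ≤ s := hs
    have hi' : i < q := hi
    obtain ⟨hNI, hσ, -, -⟩ := hHY.1 s hs' hsS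
    obtain ⟨hSz, hdisp⟩ := hNI i hi'
    obtain ⟨n1, n2, n3⟩ := hNIM (cm s i) hSz
    refine ⟨⟨?_, ?_⟩, ?_⟩
    · intro x y
      refine ⟨le_trans (n1 x y).1 ?_, (n1 x y).2⟩
      apply div_le_div_of_nonneg_left (abs_nonneg _) (by positivity)
      norm_num
    · have he : (2 : ℝ) ^ (w0 + 3) / 2 ^ s0 = 1 / 2 ^ (s0 - w0 - 4 + 1) := by
        rw [div_eq_div_iff (by positivity) (by positivity), one_mul, ← pow_add]
        congr 1
        omega
      rw [he] at hdisp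
      exact fun x => ⟨hdisp x, n2 _ hdisp x⟩
    · intro t ht hts x
      have ht' : s0 ≤ t := ht
      have hσt := (hHY.1 t ht' (by omega)).2.1
      have hdr := (hHY.2 t s ht' hts hsS).2 i hi'
      have hb : (1 : ℝ) / 2 ^ (σ t + 2) ≤ 1 / 2 ^ 28 / 2 ^ t := by
        rw [div_div, ← pow_add]
        apply one_div_le_one_div_of_le (by positivity)
        apply pow_le_pow_right₀ (by norm_num)
        omega
      have hdr' : ∀ x, |ev (cm s i) x - ev (cm t i) x| ≤ 1 / 2 ^ 28 / 2 ^ t := fun x => le_trans (hdr x) hb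
      constructor
      · refine le_trans (hdr' x) ?_
        apply div_le_div_of_nonneg_right _ (by positivity)
        norm_num
      · refine le_trans (n3 (cm t i) _ hdr' x) (le_of_eq ?_)
        ring
  · intro s hs hsS
    have hs' : s0 + w0 - a * LL w0 ≤ s := hs
    refine ⟨?_, hd1 s hs' hsS⟩
    have hs0s : s0 ≤ s := by omega
    obtain ⟨hNI, -, -, hG⟩ := hHY.1 s hs0s hsS
    exact hM w0 hwb (rPP q s0 w0 a cm y) s0 s h10 hs0s hqq rfl rfl hNI (fun s' h1 h2 => hG s' h1 (by omega))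

end Pool.Agent.helper90.DH
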