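import Pool.Agent.helper69.DH.SpecR2

/-!
# Project d2: row rSIG
-/

set_option autoImplicit false

open Filter Topology MeasureTheory
open scoped commutatorElement

namespace Pool.Agent.helper90.DH

open Pool.Agent.helper64.D2

lemma rSIG_geo (n : ℕ) : ∑ k ∈ Finset.range n, (1 / 2 : ℝ) ^ k ≤ 2 := by
  have h : ∑ k ∈ Finset.range n, (1 / 2 : ℝ) ^ k = 2 * (1 - (1 / 2) ^ n) := by
    rw [geom_sum_eq (by norm_num)]
    ring
  rw [h]
  have : (0 : ℝ) ≤ (1 / 2) ^ n := by positivity
  linarith

lemma rSIG_in (n t : ℕ) : ∑ s ∈ (Finset.range n).filter (fun s => t ≤ s), (2 : ℝ) ^ t / 2 ^ s ≤ 2 := by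
  have h1 : (Finset.range n).filter (fun s => t ≤ s) = Finset.Ico t n := by
    ext s
    simp only [Finset.mem_filter, Finset.mem_range, Finset.mem_Ico]
    tauto
  rw [h1, Finset.sum_Ico_eq_sum_range]
  refine le_trans (le_of_eq ?_) (rSIG_geo (n - t))
  apply Finset.sum_congr rfl
  intro k _
  rw [pow_add, one_div_pow]
  field_simp

/-- **rSIG**. -/
theorem rSIG : rSIG_stmt := by
  intro H n z hn
  rcases n with _ | m
  · simp
  · have hA := hn m (Nat.lt_succ_self m)
    set A := rAc H (3 * 2 ^ 30 - 8) m z with hAdef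
    have h1 : ∀ s ∈ Finset.range (m + 1), rsg H s z ≤ ∑ t ∈ A, if t ≤ s then (2 : ℝ) ^ t / 2 ^ s else 0 := by
      intro s hs
      unfold rsg
      rw [← Finset.sum_filter]
      apply Finset.sum_le_sum_of_subset_of_nonneg
      · intro t ht
        unfold rAc at ht
        rw [Finset.mem_filter, Finset.mem_range] at ht
        rw [Finset.mem_filter, hAdef]
        unfold rAc
        rw [Finset.mem_filter, Finset.mem_range]
        have := Finset.mem_range.1 hs
        exact ⟨⟨by omega, ht.2⟩, by omega⟩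
      · intro t _ _
        positivity
    calc ∑ s ∈ Finset.range (m + 1), rsg H s z ≤ ∑ s ∈ Finset.range (m + 1), ∑ t ∈ A, (if t ≤ s then (2 : ℝ) ^ t / 2 ^ s else 0) := Finset.sum_le_sum h1
      _ = ∑ t ∈ A, ∑ s ∈ Finset.range (m + 1), (if t ≤ s then (2 : ℝ) ^ t / 2 ^ s else 0) := Finset.sum_comm
      _ ≤ ∑ t ∈ A, (2 : ℝ) := by
          apply Finset.sum_le_sum
          intro t _
          rw [← Finset.sum_filter]
          exact rSIG_in (m + 1) t
      _ = A.card * 2 := by rw [Finset.sum_const, nsmul_eq_mul]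
      _ ≤ 2 ^ 38 * 2 := by
          have : (A.card : ℝ) ≤ 2 ^ 38 := by exact_mod_cast hA.le
          linarith
      _ = 2 ^ 39 := by norm_num

end Pool.Agent.helper90.DH
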